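import Mathlib
import Pool.Agent.H28.Birk

set_option autoImplicit false

namespace Pool.Agent.Results.MP_894476_an.Yes

open MeasureTheory Filter Topology Set Metric Pool.Agent.H28.Birk
open scoped ENNReal

lemma main {X : Type*} [MetricSpace X] [MeasurableSpace X] (μ : Measure X) [IsProbabilityMeasure μ]
    (hL : ∀ g : X → ℝ, Integrable g μ →
      ∀ᵐ x ∂μ, Tendsto (fun r => ⨍ y in ball x r, g y ∂μ) (𝓝[>] 0) (𝓝 (g x)))
    {T : X → X} (hT : MeasurePreserving T μ μ) {p : ℝ} (hp : 1 < p) {f : X → ℝ} (hm : Measurable f)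
    (hf : Integrable f μ) (hi : Integrable (fun x => |f x| ^ p) μ) :
    ∀ᵐ x ∂μ, ∀ ε > 0, ∃ δ > 0, ∃ K : ℕ, ∀ r, 0 < r → r < δ → ∀ k ≥ K,
      |⨍ y in ball x r, birkhoffAverage ℝ T f k y ∂μ - μ[f | MeasurableSpace.invariants T] x| < ε := by
  have h1 := birkhoff hT hm hf
  have hg : Measurable μ[f | MeasurableSpace.invariants T] :=
    (stronglyMeasurable_condExp.mono (MeasurableSpace.invariants_le T)).measurable
  have hgi : Integrable μ[f | MeasurableSpace.invariants T] μ := integrable_condExp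
  generalize μ[f | MeasurableSpace.invariants T] = g at *
  set G : ℕ → X → ℝ := fun K x => ⨆ k, |birkhoffAverage ℝ T f (k + K) x - g x|
  have h2 : ∀ᵐ x ∂μ, ∀ k, |birkhoffAverage ℝ T f k x| ≤ ⨆ k, |birkhoffAverage ℝ T f k x| :=
    h1.mono fun x hx => le_ciSup hx.abs.bddAbove_range
  have h3 : ∀ᵐ x ∂μ, ∀ K k, |birkhoffAverage ℝ T f (k + K) x - g x| ≤ G K x :=
    h1.mono fun x hx K =>
      le_ciSup (((tendsto_add_atTop_iff_nat K).2 hx).sub_const (g x)).abs.bddAbove_range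
  have h4 := max_int hT hm hp hi
  have hG : ∀ K, Integrable (G K) μ := fun K => by
    refine (h4.add hgi.abs).mono' (Measurable.iSup fun k =>
      ((A_meas hT.measurable hm _).sub hg).abs).aestronglyMeasurable (h2.mono fun x hx => ?_)
    rw [Real.norm_of_nonneg (Real.iSup_nonneg fun _ => abs_nonneg _)]
    exact ciSup_le fun k => (abs_sub _ _).trans (add_le_add_left (hx _) _)
  have hA : ∀ k, Integrable (birkhoffAverage ℝ T f k) μ := fun k =>
    h4.mono' (A_meas hT.measurable hm k).aestronglyMeasurable (h2.mono fun x hx => hx k)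
  filter_upwards [h1, hL g hgi, ae_all_iff.2 fun K => hL _ (hG K)] with x k1 k2 k3 ε hε
  obtain ⟨K, hK⟩ := Metric.tendsto_atTop.1 k1 (ε / 3) (by linarith)
  have k4 : G K x < ε / 2 :=
    (ciSup_le fun k => (hK (k + K) (by omega)).le).trans_lt (by linarith)
  obtain ⟨δ, hδ, k5⟩ := mem_nhdsGT_iff_exists_Ioo_subset.1 (((k3 K).eventually (gt_mem_nhds k4)).and
    (Metric.tendsto_nhds.1 k2 _ (half_pos hε)))
  refine ⟨δ, hδ, K, fun r r1 r2 k hk => ?_⟩
  obtain ⟨k6, k7⟩ := k5 ⟨r1, r2⟩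
  obtain ⟨k, rfl⟩ := Nat.exists_eq_add_of_le' hk
  have k8 : |⨍ y in ball x r, birkhoffAverage ℝ T f (k + K) y ∂μ - ⨍ y in ball x r, g y ∂μ| ≤
      ⨍ y in ball x r, G K y ∂μ := by
    simp only [setAverage_eq, smul_eq_mul]
    rw [← mul_sub, abs_mul, abs_of_nonneg (by positivity), ← integral_sub (hA _).integrableOn
      hgi.integrableOn]
    refine mul_le_mul_of_nonneg_left ?_ (by positivity)
    exact norm_integral_le_of_norm_le (f := fun y => birkhoffAverage ℝ T f (k + K) y - g y)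
      (hG K).integrableOn (ae_restrict_of_ae (h3.mono fun y hy => hy K k))
  rw [Real.dist_eq] at k7
  linarith [abs_sub_le (⨍ y in ball x r, birkhoffAverage ℝ T f (k + K) y ∂μ) (⨍ y in ball x r, g y ∂μ) (g x)]

theorem result {X : Type*} [MetricSpace X] [MeasurableSpace X] [BorelSpace X] (μ : Measure X)
    [IsProbabilityMeasure μ]
    (hL : ∀ g : X → ℝ, Integrable g μ →
      ∀ᵐ x ∂μ, Tendsto (fun r => ⨍ y in ball x r, g y ∂μ) (𝓝[>] 0) (𝓝 (g x)))
    (T : X → X) (hT : MeasurePreserving T μ μ) (p : ℝ≥0∞) (hp : 1 < p) (f : X → ℝ) (hf : MemLp f p μ) :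
    ∀ᵐ x ∂μ, ∀ ε > 0, ∃ δ > 0, ∃ K : ℕ, ∀ r, 0 < r → r < δ → ∀ k ≥ K,
      |⨍ y in ball x r, birkhoffAverage ℝ T f k y ∂μ - μ[f | MeasurableSpace.invariants T] x| < ε := by
  have e := hf.1.ae_eq_mk
  have h1 := (memLp_congr_ae e).1 hf
  have h2 : 1 < min p 2 := lt_min hp (by norm_num)
  have h3 : min p 2 ≠ ⊤ := ((min_le_right _ _).trans_lt (by norm_num)).ne
  have h4 := (h1.mono_exponent (min_le_left p 2)).integrable_norm_rpow (zero_lt_one.trans h2).ne' h3
  filter_upwards [main μ hL hT (p := (min p 2).toReal)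
    (by simpa using (ENNReal.toReal_lt_toReal (by simp) h3).2 h2) hf.1.measurable_mk
    (h1.integrable hp.le) h4, condExp_congr_ae (m := MeasurableSpace.invariants T) e] with x k1 k2 ε hε
  obtain ⟨δ, hδ, K, h⟩ := k1 ε hε
  refine ⟨δ, hδ, K, fun r r1 r2 k hk => ?_⟩
  rw [k2, average_congr (ae_restrict_of_ae
    (hT.quasiMeasurePreserving.birkhoffAverage_ae_eq_of_ae_eq ℝ e k))]
  exact h r r1 r2 k hk

end Pool.Agent.Results.MP_894476_an.Yes
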